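import Pool.Agent.helper24.SK.Spec

/-!
# Project sk, row E3: three variables of length about `N`
-/

set_option autoImplicit false

namespace Pool.Agent.SK

open Finset ArithmeticFunction MeasureTheory
open Pool.Agent.CH (nit DPb Win Tset ph)
open Pool.Agent.EC (tri vN fN XN TL AdT)
open Pool.Agent.helper85.BVP (tau)
open GD (ks)

/-- dyadic decomposition -/
private theorem E3_dy (F : ℕ → ℂ) (I : ℕ) :
    ∑ x ∈ Ico 1 (2 ^ I), F x = ∑ i ∈ range I, ∑ x ∈ Ico (2 ^ i) (2 * 2 ^ i), F x := by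
  induction I with
  | zero => simp
  | succ n ih =>
    rw [sum_range_succ, ← ih, pow_succ, mul_comm (2 ^ n) 2]
    exact (sum_Ico_consecutive _ Nat.one_le_two_pow (by omega)).symm

private theorem E3_dy2 (F : ℕ → ℂ) (Y I : ℕ) (hY : Y < 2 ^ I) (hF : ∀ x, Y < x → F x = 0) :
    ∑ x ∈ Ioc 0 Y, F x = ∑ i ∈ range I, ∑ x ∈ Ico (2 ^ i) (2 * 2 ^ i), F x := by
  rw [← E3_dy]
  refine sum_subset ?_ ?_
  · intro x hx
    rw [mem_Ioc] at hx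
    rw [mem_Ico]
    omega
  · intro x hx hx'
    rw [mem_Ico] at hx
    rw [mem_Ioc] at hx'
    exact hF x (by omega)

private theorem E3_nit (t : ℝ) (x y z : ℕ) (hx : 1 ≤ x) (hy : 1 ≤ y) (hz : 1 ≤ z) :
    nit t ((x * y * z : ℕ) : ℝ) = nit t x * nit t y * nit t z := by
  unfold nit
  rw [← Complex.exp_add, ← Complex.exp_add]
  congr 1
  have h1 : (x : ℝ) ≠ 0 := by exact_mod_cast (by omega : x ≠ 0)
  have h2 : (y : ℝ) ≠ 0 := by exact_mod_cast (by omega : y ≠ 0)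
  have h3 : (z : ℝ) ≠ 0 := by exact_mod_cast (by omega : z ≠ 0)
  rw [Nat.cast_mul, Nat.cast_mul, Real.log_mul (mul_ne_zero h1 h2) h3, Real.log_mul h1 h2]
  push_cast
  ring

private theorem E3_cont (M : ℕ) (a : ℕ → ℂ) : Continuous (DPb M a) := by
  unfold DPb nit
  fun_prop

/-- the mean value in the form of CS3 -/
private theorem E3_mv (C₁ : ℝ) (hC₁ : 0 < C₁) (N C c M : ℕ) (a : ℕ → ℂ) (L : ℝ) (hL : L = Real.log N)
    (hL1 : 1 ≤ L) (hN : 1 ≤ N) (ha : ∀ n, ‖a n‖ ≤ L ^ c) (hM : 1 ≤ M) (hMN : (M : ℝ) ≤ N * L ^ C)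
    (hM2 : (M : ℝ) ≤ (N : ℝ) ^ 2) (hNM : (N : ℝ) ≤ 64 * M * L ^ (2 * C)) (T : ℝ) (hT : (N : ℝ) ≤ T)
    (hmv : ∫ t in (-T)..T, ‖DPb M a t‖ ^ 2 ≤
      C₁ * (T + M) * (1 + Real.log M) * ∑ k ∈ Ico M (2 * M), ‖a k‖ ^ 2) :
    ∫ t in (-T)..T, ‖DPb M a t‖ ^ 2 ≤ 384 * C₁ * (M : ℝ) ^ 2 * L ^ (3 * C + 2 * c + 1) * (T / N) := by
  have hN0 : (0 : ℝ) < N := by exact_mod_cast hN
  have hM0 : (0 : ℝ) < M := by exact_mod_cast hM
  have hT0 : 0 < T := by linarith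
  have hL0 : 0 < L := by linarith
  have hLC : 1 ≤ L ^ C := one_le_pow₀ hL1
  have hlogM : 1 + Real.log M ≤ 3 * L := by
    have h1 : Real.log M ≤ Real.log ((N : ℝ) ^ 2) := Real.log_le_log hM0 hM2
    rw [Real.log_pow, ← hL] at h1
    push_cast at h1
    linarith
  have hlogM0 : 0 ≤ Real.log M := Real.log_natCast_nonneg M
  have hsum : ∑ k ∈ Ico M (2 * M), ‖a k‖ ^ 2 ≤ M * L ^ (2 * c) := by
    calc ∑ k ∈ Ico M (2 * M), ‖a k‖ ^ 2 ≤ ∑ _k ∈ Ico M (2 * M), L ^ (2 * c) := by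
          refine sum_le_sum fun k _ => ?_
          have := pow_le_pow_left₀ (norm_nonneg _) (ha k) 2
          rw [← pow_mul, mul_comm c 2] at this
          exact this
      _ = M * L ^ (2 * c) := by
          rw [sum_const, Nat.card_Ico, nsmul_eq_mul]
          congr 2
          omega
  have hTM : T + M ≤ 128 * M * L ^ (3 * C) * (T / N) := by
    have e1 : T = (T / N) * N := by field_simp
    have hTN : 1 ≤ T / N := by
      rw [le_div_iff₀ hN0]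
      linarith
    have e2 : (M : ℝ) ≤ (T / N) * (N * L ^ C) := by
      calc (M : ℝ) ≤ 1 * (N * L ^ C) := by linarith
        _ ≤ (T / N) * (N * L ^ C) := by gcongr
    have e3 : (N : ℝ) ≤ N * L ^ C := by nlinarith
    calc T + M ≤ (T / N) * (N * L ^ C) + (T / N) * (N * L ^ C) := by
          refine add_le_add ?_ e2
          nth_rewrite 1 [e1]
          gcongr
      _ = 2 * (T / N) * L ^ C * N := by ring
      _ ≤ 2 * (T / N) * L ^ C * (64 * M * L ^ (2 * C)) := by gcongr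
      _ = 128 * M * L ^ (3 * C) * (T / N) := by ring
  refine hmv.trans ?_
  calc C₁ * (T + M) * (1 + Real.log M) * ∑ k ∈ Ico M (2 * M), ‖a k‖ ^ 2
      ≤ C₁ * (128 * M * L ^ (3 * C) * (T / N)) * (3 * L) * (M * L ^ (2 * c)) := by
        gcongr
    _ = _ := by ring

private theorem E3_near1 (M N : ℕ) (hM : 1 ≤ M) (hN : 4 ≤ N) (u : ℝ) :
    (#((Ico M (2 * M)).filter (fun z : ℕ => |Real.log z - u| ≤ 2 / N)) : ℝ) ≤ 16 * M / N + 1 := by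
  have hN0 : (0 : ℝ) < N := by exact_mod_cast (by omega : 0 < N)
  have hM0 : (0 : ℝ) < M := by exact_mod_cast hM
  rcases ((Ico M (2 * M)).filter (fun z : ℕ => |Real.log z - u| ≤ 2 / N)).eq_empty_or_nonempty with h | h
  · rw [h, card_empty]
    push_cast
    positivity
  · obtain ⟨a₁, ha₁, hmin⟩ := Finset.exists_min_image _ (fun a : ℕ => a) h
    obtain ⟨a₂, ha₂, hmax⟩ := Finset.exists_max_image _ (fun a : ℕ => a) h
    have h12 : a₁ ≤ a₂ := hmin a₂ ha₂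
    have hsub : (Ico M (2 * M)).filter (fun z : ℕ => |Real.log z - u| ≤ 2 / N) ⊆ Icc a₁ a₂ := by
      intro x hx
      rw [mem_Icc]
      exact ⟨hmin x hx, hmax x hx⟩
    have hcard := card_le_card hsub
    rw [Nat.card_Icc] at hcard
    rw [mem_filter, mem_Ico, abs_le] at ha₁ ha₂
    obtain ⟨⟨h1, h2⟩, h3, h4⟩ := ha₁
    obtain ⟨⟨g1, g2⟩, g3, g4⟩ := ha₂
    have hp1 : (0 : ℝ) < a₁ := by exact_mod_cast (by omega : 0 < a₁)
    have hp2 : (0 : ℝ) < a₂ := by exact_mod_cast (by omega : 0 < a₂)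
    have hlog : Real.log a₂ ≤ Real.log a₁ + 4 / N := by
      have : (4 : ℝ) / N = 2 / N + 2 / N := by ring
      rw [this]
      linarith
    have hle : (a₂ : ℝ) ≤ a₁ * Real.exp (4 / N) := by
      have := Real.exp_le_exp.2 hlog
      rw [Real.exp_add, Real.exp_log hp1, Real.exp_log hp2] at this
      exact this
    have h4N : (4 : ℝ) / N ≤ 1 := by
      rw [div_le_one hN0]
      exact_mod_cast hN
    have h4N0 : (0 : ℝ) < 4 / N := by positivity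
    have hexp : Real.exp (4 / N) - 1 ≤ 2 * (4 / N) := by
      have := Real.abs_exp_sub_one_le (x := (4 : ℝ) / N) (by rw [abs_of_pos h4N0]; exact h4N)
      rw [abs_of_pos h4N0] at this
      exact (le_abs_self _).trans this
    have h2M : (a₁ : ℝ) ≤ 2 * M := by exact_mod_cast h2.le
    have hk : (a₁ : ℝ) * (Real.exp (4 / N) - 1) ≤ 2 * M * (2 * (4 / N)) := by
      refine mul_le_mul h2M hexp ?_ (by positivity)
      have := Real.one_le_exp h4N0.le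
      linarith
    have hc : (#((Ico M (2 * M)).filter (fun z : ℕ => |Real.log z - u| ≤ 2 / N)) : ℝ) ≤ (a₂ : ℝ) - a₁ + 1 := by
      have e : a₂ + 1 - a₁ = (a₂ - a₁) + 1 := by omega
      rw [e] at hcard
      have h5 : (#((Ico M (2 * M)).filter (fun z : ℕ => |Real.log z - u| ≤ 2 / N)) : ℝ) ≤ (((a₂ - a₁) + 1 : ℕ) : ℝ) := by
        exact_mod_cast hcard
      rw [Nat.cast_add, Nat.cast_sub h12, Nat.cast_one] at h5
      exact h5
    have e2 : (2 : ℝ) * M * (2 * (4 / N)) = 16 * M / N := by ring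
    rw [e2] at hk
    nlinarith

/-- one block -/
private theorem E3_blk (A C c B B₁ N : ℕ) (v L C₁ : ℝ) (hL : L = Real.log N) (hL1 : 1 ≤ L) (hN4 : 4 ≤ N)
    (hC₁ : 0 < C₁)
    (hMV : ∀ (T : ℝ) (K : ℕ) (b : ℕ → ℂ), 1 ≤ T → 1 ≤ K →
      ∫ t in (-T)..T, ‖DPb K b t‖ ^ 2 ≤ C₁ * (T + K) * (1 + Real.log K) * ∑ k ∈ Ico K (2 * K), ‖b k‖ ^ 2)
    (hbig : 129 * L ^ (2 * C + 3 * c + A + 5) ≤ (N : ℝ) ^ (1 / 200 : ℝ))
    (hv : |v - 3 * L| ≤ 1)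
    (hFG : ∀ (ι : Type) (S : Finset ι) (x : ι → ℕ) (f : ι → ℂ), (∀ w ∈ S, 1 ≤ x w) →
      ‖∑ w ∈ S, f w * gj B N v (x w)‖ ≤ (∑ w ∈ S, ‖f w‖) / (N * L ^ (A + 3 * c + 5)) +
        (N : ℝ) ^ (-(1 / 200) : ℝ) * (∑ w ∈ S with |Real.log (x w : ℝ) - v| ≤ 2 / N, ‖f w‖) +
        1 / (N : ℝ) * ∫ t in Tset (1 / 200) B₁ N, ‖∑ w ∈ S, f w * nit t (x w : ℝ)‖ * min 1 (8 * (N : ℝ) ^ 2 / t ^ 2))
    (hG0 : ∀ x, 1 / L ^ B ≤ |x - v| → g0 B N v x = 0) (hCS : CS3_stmt) (α β γ : ℕ → ℂ)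
    (hα : ∀ n, ‖α n‖ ≤ L ^ c) (hβ : ∀ n, ‖β n‖ ≤ L ^ c) (hγ : ∀ n, ‖γ n‖ ≤ L ^ c)
    (hα0 : ∀ n : ℕ, N * L ^ C < n → α n = 0) (hβ0 : ∀ n : ℕ, N * L ^ C < n → β n = 0)
    (hγ0 : ∀ n : ℕ, N * L ^ C < n → γ n = 0)
    (hsup : ∀ M : ℕ, (N : ℝ) ^ (1 / 2 : ℝ) ≤ M → M ≤ N ^ 2 → ∀ t ∈ Tset (1 / 200) B₁ N,
      ‖DPb M β t‖ ≤ M / L ^ (A + (3 * C + 2 * c + 1) + 5))
    (Ma Mb Mc : ℕ) (ha : 1 ≤ Ma) (hb : 1 ≤ Mb) (hc : 1 ≤ Mc) :
    ‖∑ x ∈ Ico Ma (2 * Ma), ∑ y ∈ Ico Mb (2 * Mb), ∑ z ∈ Ico Mc (2 * Mc),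
      α x * β y * γ z * gj B N v (x * y * z)‖ ≤ (9 + 122880 * C₁) * (N : ℝ) ^ 2 / L ^ (A + 5) := by
  have hN0 : (0 : ℝ) < N := by exact_mod_cast (by omega : 0 < N)
  have hN1 : (1 : ℝ) ≤ N := by exact_mod_cast (by omega : 1 ≤ N)
  have hL0 : 0 < L := by linarith
  have hrhs : 0 ≤ (9 + 122880 * C₁) * (N : ℝ) ^ 2 / L ^ (A + 5) := by positivity
  have ha0 : (0 : ℝ) < Ma := by exact_mod_cast ha
  have hb0 : (0 : ℝ) < Mb := by exact_mod_cast hb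
  have hc0 : (0 : ℝ) < Mc := by exact_mod_cast hc
  -- empty blocks
  by_cases h1 : (N : ℝ) * L ^ C < Ma
  · rw [sum_eq_zero]
    · simpa using hrhs
    · intro x hx
      rw [mem_Ico] at hx
      refine sum_eq_zero fun y _ => sum_eq_zero fun z _ => ?_
      have : (Ma : ℝ) ≤ x := by exact_mod_cast hx.1
      rw [hα0 x (by linarith)]
      ring
  by_cases h2 : (N : ℝ) * L ^ C < Mb
  · rw [sum_eq_zero]
    · simpa using hrhs
    · intro x _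
      refine sum_eq_zero fun y hy => sum_eq_zero fun z _ => ?_
      rw [mem_Ico] at hy
      have : (Mb : ℝ) ≤ y := by exact_mod_cast hy.1
      rw [hβ0 y (by linarith)]
      ring
  by_cases h3 : (N : ℝ) * L ^ C < Mc
  · rw [sum_eq_zero]
    · simpa using hrhs
    · intro x _
      refine sum_eq_zero fun y _ => sum_eq_zero fun z hz => ?_
      rw [mem_Ico] at hz
      have : (Mc : ℝ) ≤ z := by exact_mod_cast hz.1
      rw [hγ0 z (by linarith)]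
      ring
  push Not at h1 h2 h3
  have hB1 : 1 / L ^ B ≤ 1 := by
    rw [div_le_one (by positivity)]
    exact one_le_pow₀ hL1
  have hlog8 : 2 ≤ Real.log 8 := by
    rw [show (8 : ℝ) = 2 ^ (3 : ℕ) by norm_num, Real.log_pow]
    have := Real.log_two_gt_d9
    push_cast
    linarith
  rw [abs_le] at hv
  by_cases h4 : 8 * (N : ℝ) ^ 3 < Ma * Mb * Mc
  · rw [sum_eq_zero]
    · simpa using hrhs
    · intro x hx
      refine sum_eq_zero fun y hy => sum_eq_zero fun z hz => ?_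
      rw [mem_Ico] at hx hy hz
      have hg : gj B N v (x * y * z) = 0 := by
        unfold gj
        rw [hG0 _ ?_, Complex.ofReal_zero]
        have h5 : (Ma : ℝ) * Mb * Mc ≤ ((x * y * z : ℕ) : ℝ) := by
          exact_mod_cast Nat.mul_le_mul (Nat.mul_le_mul hx.1 hy.1) hz.1
        have h6 : Real.log (8 * (N : ℝ) ^ 3) ≤ Real.log ((x * y * z : ℕ) : ℝ) :=
          Real.log_le_log (by positivity) (by linarith)
        rw [Real.log_mul (by norm_num) (by positivity), Real.log_pow, ← hL] at h6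
        push_cast at h6 ⊢
        refine hB1.trans (le_trans ?_ (le_abs_self _))
        linarith [hv.2]
      rw [hg, mul_zero]
  by_cases h5 : 64 * ((Ma : ℝ) * Mb * Mc) < (N : ℝ) ^ 3
  · rw [sum_eq_zero]
    · simpa using hrhs
    · intro x hx
      refine sum_eq_zero fun y hy => sum_eq_zero fun z hz => ?_
      rw [mem_Ico] at hx hy hz
      have hg : gj B N v (x * y * z) = 0 := by
        unfold gj
        rw [hG0 _ ?_, Complex.ofReal_zero]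
        have h5' : ((x * y * z : ℕ) : ℝ) ≤ 8 * (Ma * Mb * Mc) := by
          have : x * y * z ≤ (2 * Ma) * (2 * Mb) * (2 * Mc) :=
            Nat.mul_le_mul (Nat.mul_le_mul hx.2.le hy.2.le) hz.2.le
          have h7 : ((x * y * z : ℕ) : ℝ) ≤ (((2 * Ma) * (2 * Mb) * (2 * Mc) : ℕ) : ℝ) := by exact_mod_cast this
          push_cast at h7 ⊢
          linarith
        have hpos : (0 : ℝ) < ((x * y * z : ℕ) : ℝ) := by
          have : 0 < x * y * z := Nat.mul_pos (Nat.mul_pos (by omega) (by omega)) (by omega)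
          exact_mod_cast this
        have h6 : Real.log (8 * ((x * y * z : ℕ) : ℝ)) ≤ Real.log ((N : ℝ) ^ 3) :=
          Real.log_le_log (by positivity) (by linarith)
        rw [Real.log_mul (by norm_num) hpos.ne', Real.log_pow, ← hL] at h6
        push_cast at h6 ⊢
        refine hB1.trans (le_trans ?_ (neg_le_abs _))
        linarith [hv.1]
      rw [hg, mul_zero]
  push Not at h4 h5
  -- sizes
  have hLC : 1 ≤ L ^ C := one_le_pow₀ hL1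
  have hNNL : ∀ X Y Z : ℝ, 0 < X → 0 < Y → 0 < Z → Y ≤ N * L ^ C → Z ≤ N * L ^ C → (N : ℝ) ^ 3 ≤ 64 * (X * Y * Z) →
      (N : ℝ) ≤ 64 * X * L ^ (2 * C) := by
    intro X Y Z hX hY hZ hY1 hZ1 h
    have e1 : (N : ℝ) ^ 3 ≤ 64 * (X * (N * L ^ C) * (N * L ^ C)) := by
      refine h.trans ?_
      gcongr
    have e2 : (N : ℝ) ^ 2 * N ≤ (N : ℝ) ^ 2 * (64 * X * L ^ (2 * C)) := by
      calc (N : ℝ) ^ 2 * N = (N : ℝ) ^ 3 := by ring
        _ ≤ 64 * (X * (N * L ^ C) * (N * L ^ C)) := e1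
        _ = (N : ℝ) ^ 2 * (64 * X * L ^ (2 * C)) := by ring
    exact le_of_mul_le_mul_left e2 (by positivity)
  have hNa : (N : ℝ) ≤ 64 * Ma * L ^ (2 * C) := hNNL Ma Mb Mc ha0 hb0 hc0 h2 h3 h5
  have hNb : (N : ℝ) ≤ 64 * Mb * L ^ (2 * C) := hNNL Mb Ma Mc hb0 ha0 hc0 h1 h3 (by linarith [h5])
  have hNc : (N : ℝ) ≤ 64 * Mc * L ^ (2 * C) := hNNL Mc Ma Mb hc0 ha0 hb0 h1 h2 (by linarith [h5])
  have hbig' : ∀ k : ℕ, k ≤ 2 * C + 3 * c + A + 5 → 129 * L ^ k ≤ (N : ℝ) ^ (1 / 200 : ℝ) := by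
    intro k hk
    refine le_trans ?_ hbig
    have := pow_le_pow_right₀ hL1 hk
    linarith
  have hLN : L ^ C ≤ N := by
    have e1 := hbig' C (by omega)
    have e2 : (N : ℝ) ^ (1 / 200 : ℝ) ≤ N := by
      calc (N : ℝ) ^ (1 / 200 : ℝ) ≤ (N : ℝ) ^ (1 : ℝ) := Real.rpow_le_rpow_of_exponent_le hN1 (by norm_num)
        _ = N := Real.rpow_one _
    have : 0 ≤ L ^ C := by positivity
    linarith
  have hN2 : (N : ℝ) * L ^ C ≤ (N : ℝ) ^ 2 := by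
    rw [pow_two]
    gcongr
  -- the Fourier bound
  have hF := hFG (ℕ × ℕ × ℕ) (Ico Ma (2 * Ma) ×ˢ (Ico Mb (2 * Mb) ×ˢ Ico Mc (2 * Mc)))
    (fun w => w.1 * w.2.1 * w.2.2) (fun w => α w.1 * β w.2.1 * γ w.2.2) (by
      intro w hw
      rw [mem_product, mem_product, mem_Ico, mem_Ico, mem_Ico] at hw
      exact Nat.mul_pos (Nat.mul_pos (by omega) (by omega)) (by omega))
  have hsum : ∑ w ∈ Ico Ma (2 * Ma) ×ˢ (Ico Mb (2 * Mb) ×ˢ Ico Mc (2 * Mc)),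
      α w.1 * β w.2.1 * γ w.2.2 * gj B N v (w.1 * w.2.1 * w.2.2) =
      ∑ x ∈ Ico Ma (2 * Ma), ∑ y ∈ Ico Mb (2 * Mb), ∑ z ∈ Ico Mc (2 * Mc),
        α x * β y * γ z * gj B N v (x * y * z) := by
    rw [sum_product]
    refine sum_congr rfl fun x _ => ?_
    rw [sum_product]
  rw [hsum] at hF
  refine hF.trans ?_
  have hfn : ∀ w : ℕ × ℕ × ℕ, ‖α w.1 * β w.2.1 * γ w.2.2‖ ≤ L ^ (3 * c) := by
    intro w
    rw [norm_mul, norm_mul]
    calc ‖α w.1‖ * ‖β w.2.1‖ * ‖γ w.2.2‖ ≤ L ^ c * L ^ c * L ^ c := by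
          gcongr
          · exact hα _
          · exact hβ _
          · exact hγ _
      _ = L ^ (3 * c) := by ring
  -- first term
  have ht1 : (∑ w ∈ Ico Ma (2 * Ma) ×ˢ (Ico Mb (2 * Mb) ×ˢ Ico Mc (2 * Mc)), ‖α w.1 * β w.2.1 * γ w.2.2‖) /
      (N * L ^ (A + 3 * c + 5)) ≤ 8 * (N : ℝ) ^ 2 / L ^ (A + 5) := by
    have e1 : ∑ w ∈ Ico Ma (2 * Ma) ×ˢ (Ico Mb (2 * Mb) ×ˢ Ico Mc (2 * Mc)), ‖α w.1 * β w.2.1 * γ w.2.2‖ ≤
        8 * (N : ℝ) ^ 3 * L ^ (3 * c) := by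
      calc ∑ w ∈ Ico Ma (2 * Ma) ×ˢ (Ico Mb (2 * Mb) ×ˢ Ico Mc (2 * Mc)), ‖α w.1 * β w.2.1 * γ w.2.2‖
          ≤ ∑ _w ∈ Ico Ma (2 * Ma) ×ˢ (Ico Mb (2 * Mb) ×ˢ Ico Mc (2 * Mc)), L ^ (3 * c) :=
            sum_le_sum fun w _ => hfn w
        _ = (Ma * Mb * Mc) * L ^ (3 * c) := by
            rw [sum_const, card_product, card_product, Nat.card_Ico, Nat.card_Ico, Nat.card_Ico, nsmul_eq_mul]
            have e : ∀ M : ℕ, 2 * M - M = M := fun M => by omega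
            rw [e, e, e]
            push_cast
            ring
        _ ≤ 8 * (N : ℝ) ^ 3 * L ^ (3 * c) := by gcongr
    rw [div_le_div_iff₀ (by positivity) (by positivity)]
    calc (∑ w ∈ Ico Ma (2 * Ma) ×ˢ (Ico Mb (2 * Mb) ×ˢ Ico Mc (2 * Mc)), ‖α w.1 * β w.2.1 * γ w.2.2‖) * L ^ (A + 5)
        ≤ 8 * (N : ℝ) ^ 3 * L ^ (3 * c) * L ^ (A + 5) := by gcongr
      _ = 8 * (N : ℝ) ^ 2 * (N * L ^ (A + 3 * c + 5)) := by ring
  -- second term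
  have hnear : (#((Ico Ma (2 * Ma) ×ˢ (Ico Mb (2 * Mb) ×ˢ Ico Mc (2 * Mc))).filter
      (fun w => |Real.log ((w.1 * w.2.1 * w.2.2 : ℕ) : ℝ) - v| ≤ 2 / N)) : ℝ) ≤ 129 * (N : ℝ) ^ 2 * L ^ (2 * C) := by
    rw [card_filter, sum_product]
    push_cast
    have e1 : ∀ x ∈ Ico Ma (2 * Ma), (∑ p ∈ Ico Mb (2 * Mb) ×ˢ Ico Mc (2 * Mc),
        (if |Real.log ((x : ℝ) * (p.1 : ℝ) * (p.2 : ℝ)) - v| ≤ 2 / N then (1 : ℝ) else 0)) ≤
        Mb * (16 * Mc / N + 1) := by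
      intro x hx
      rw [mem_Ico] at hx
      rw [sum_product]
      have e2 : ∀ y ∈ Ico Mb (2 * Mb), (∑ z ∈ Ico Mc (2 * Mc),
          (if |Real.log ((x : ℝ) * (y : ℝ) * (z : ℝ)) - v| ≤ 2 / N then (1 : ℝ) else 0)) ≤ 16 * Mc / N + 1 := by
        intro y hy
        rw [mem_Ico] at hy
        have e3 := E3_near1 Mc N hc hN4 (v - Real.log x - Real.log y)
        rw [card_filter] at e3
        push_cast at e3
        refine le_trans (le_of_eq ?_) e3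
        refine sum_congr rfl fun z hz => ?_
        rw [mem_Ico] at hz
        have i1 : (x : ℝ) ≠ 0 := by exact_mod_cast (by omega : x ≠ 0)
        have i2 : (y : ℝ) ≠ 0 := by exact_mod_cast (by omega : y ≠ 0)
        have i3 : (z : ℝ) ≠ 0 := by exact_mod_cast (by omega : z ≠ 0)
        rw [Real.log_mul (mul_ne_zero i1 i2) i3, Real.log_mul i1 i2]
        have e4 : Real.log x + Real.log y + Real.log z - v = Real.log z - (v - Real.log x - Real.log y) := by ring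
        rw [e4]
      calc (∑ y ∈ Ico Mb (2 * Mb), ∑ z ∈ Ico Mc (2 * Mc),
            (if |Real.log ((x : ℝ) * (y : ℝ) * (z : ℝ)) - v| ≤ 2 / N then (1 : ℝ) else 0))
          ≤ ∑ _y ∈ Ico Mb (2 * Mb), (16 * (Mc : ℝ) / N + 1) := sum_le_sum e2
        _ = Mb * (16 * Mc / N + 1) := by
            rw [sum_const, Nat.card_Ico, nsmul_eq_mul]
            congr 2
            omega
    calc (∑ x ∈ Ico Ma (2 * Ma), ∑ p ∈ Ico Mb (2 * Mb) ×ˢ Ico Mc (2 * Mc),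
          (if |Real.log ((x : ℝ) * (p.1 : ℝ) * (p.2 : ℝ)) - v| ≤ 2 / N then (1 : ℝ) else 0))
        ≤ ∑ _x ∈ Ico Ma (2 * Ma), ((Mb : ℝ) * (16 * Mc / N + 1)) := sum_le_sum e1
      _ = Ma * (Mb * (16 * Mc / N + 1)) := by
          rw [sum_const, Nat.card_Ico, nsmul_eq_mul]
          congr 2
          omega
      _ = 16 * (Ma * Mb * Mc) / N + Ma * Mb := by ring
      _ ≤ 16 * (8 * (N : ℝ) ^ 3) / N + (N * L ^ C) * (N * L ^ C) := by gcongr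
      _ = 128 * (N : ℝ) ^ 2 + (N : ℝ) ^ 2 * L ^ (2 * C) := by
          field_simp
          ring
      _ ≤ 128 * (N : ℝ) ^ 2 * L ^ (2 * C) + (N : ℝ) ^ 2 * L ^ (2 * C) := by
          have : 1 ≤ L ^ (2 * C) := one_le_pow₀ hL1
          have h8 : 128 * (N : ℝ) ^ 2 ≤ 128 * (N : ℝ) ^ 2 * L ^ (2 * C) := le_mul_of_one_le_right (by positivity) this
          linarith
      _ = 129 * (N : ℝ) ^ 2 * L ^ (2 * C) := by ring
  have ht2 : (N : ℝ) ^ (-(1 / 200) : ℝ) * (∑ w ∈ Ico Ma (2 * Ma) ×ˢ (Ico Mb (2 * Mb) ×ˢ Ico Mc (2 * Mc)) with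
      |Real.log ((w.1 * w.2.1 * w.2.2 : ℕ) : ℝ) - v| ≤ 2 / N, ‖α w.1 * β w.2.1 * γ w.2.2‖) ≤
      (N : ℝ) ^ 2 / L ^ (A + 5) := by
    have hr0 : 0 < (N : ℝ) ^ (1 / 200 : ℝ) := Real.rpow_pos_of_pos hN0 _
    rw [Real.rpow_neg hN0.le]
    calc ((N : ℝ) ^ (1 / 200 : ℝ))⁻¹ * (∑ w ∈ Ico Ma (2 * Ma) ×ˢ (Ico Mb (2 * Mb) ×ˢ Ico Mc (2 * Mc)) with
          |Real.log ((w.1 * w.2.1 * w.2.2 : ℕ) : ℝ) - v| ≤ 2 / N, ‖α w.1 * β w.2.1 * γ w.2.2‖)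
        ≤ ((N : ℝ) ^ (1 / 200 : ℝ))⁻¹ * (129 * (N : ℝ) ^ 2 * L ^ (2 * C) * L ^ (3 * c)) := by
          refine mul_le_mul_of_nonneg_left ?_ (by positivity)
          refine (sum_le_sum fun w _ => hfn w).trans ?_
          rw [sum_const, nsmul_eq_mul]
          exact mul_le_mul_of_nonneg_right hnear (by positivity)
      _ ≤ (N : ℝ) ^ 2 / L ^ (A + 5) := by
          rw [inv_mul_le_iff₀ hr0, mul_div_assoc', le_div_iff₀ (by positivity)]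
          calc 129 * (N : ℝ) ^ 2 * L ^ (2 * C) * L ^ (3 * c) * L ^ (A + 5)
              = (N : ℝ) ^ 2 * (129 * L ^ (2 * C + 3 * c + A + 5)) := by ring
            _ ≤ (N : ℝ) ^ 2 * (N : ℝ) ^ (1 / 200 : ℝ) := by gcongr
            _ = (N : ℝ) ^ (1 / 200 : ℝ) * (N : ℝ) ^ 2 := by ring
  -- third term
  have hprod : ∀ t : ℝ, ‖∑ w ∈ Ico Ma (2 * Ma) ×ˢ (Ico Mb (2 * Mb) ×ˢ Ico Mc (2 * Mc)),
      α w.1 * β w.2.1 * γ w.2.2 * nit t ((w.1 * w.2.1 * w.2.2 : ℕ) : ℝ)‖ =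
      ‖DPb Ma α t‖ * ‖DPb Mc γ t‖ * ‖DPb Mb β t‖ := by
    intro t
    have e1 : ∑ w ∈ Ico Ma (2 * Ma) ×ˢ (Ico Mb (2 * Mb) ×ˢ Ico Mc (2 * Mc)),
        α w.1 * β w.2.1 * γ w.2.2 * nit t ((w.1 * w.2.1 * w.2.2 : ℕ) : ℝ) =
        DPb Ma α t * DPb Mb β t * DPb Mc γ t := by
      rw [sum_product]
      have e2 : ∀ x ∈ Ico Ma (2 * Ma), ∑ p ∈ Ico Mb (2 * Mb) ×ˢ Ico Mc (2 * Mc),
          α x * β p.1 * γ p.2 * nit t ((x * p.1 * p.2 : ℕ) : ℝ) =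
          (α x * nit t x) * DPb Mb β t * DPb Mc γ t := by
        intro x hx
        rw [mem_Ico] at hx
        rw [sum_product]
        unfold DPb
        rw [mul_assoc, sum_mul_sum, mul_sum]
        refine sum_congr rfl fun y hy => ?_
        rw [mul_sum]
        refine sum_congr rfl fun z hz => ?_
        rw [mem_Ico] at hy hz
        rw [E3_nit t x y z (by omega) (by omega) (by omega)]
        ring
      rw [sum_congr rfl e2, ← sum_mul, ← sum_mul]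
      rfl
    rw [e1, norm_mul, norm_mul]
    ring
  have ht3 : 1 / (N : ℝ) * ∫ t in Tset (1 / 200) B₁ N, ‖∑ w ∈ Ico Ma (2 * Ma) ×ˢ (Ico Mb (2 * Mb) ×ˢ Ico Mc (2 * Mc)),
      α w.1 * β w.2.1 * γ w.2.2 * nit t ((w.1 * w.2.1 * w.2.2 : ℕ) : ℝ)‖ * min 1 (8 * (N : ℝ) ^ 2 / t ^ 2) ≤
      122880 * C₁ * (N : ℝ) ^ 2 / L ^ (A + 5) := by
    simp_rw [hprod]
    have hMb2 : Mb ≤ N ^ 2 := by
      have : (Mb : ℝ) ≤ (N : ℝ) ^ 2 := h2.trans hN2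
      exact_mod_cast this
    have hhalf : (N : ℝ) ^ (1 / 2 : ℝ) ≤ Mb := by
      have e1 := hbig' (2 * C) (by omega)
      have e2 : (N : ℝ) ^ (1 / 200 : ℝ) ≤ (N : ℝ) ^ (1 / 2 : ℝ) :=
        Real.rpow_le_rpow_of_exponent_le hN1 (by norm_num)
      have e3 : (N : ℝ) ^ (1 / 2 : ℝ) * (N : ℝ) ^ (1 / 2 : ℝ) = N := by
        rw [← Real.rpow_add hN0]
        norm_num
      have e4 : 0 < (N : ℝ) ^ (1 / 2 : ℝ) := Real.rpow_pos_of_pos hN0 _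
      have e5 : 64 * L ^ (2 * C) ≤ (N : ℝ) ^ (1 / 2 : ℝ) := by
        have : 0 ≤ L ^ (2 * C) := by positivity
        linarith
      have e6 : (N : ℝ) ^ (1 / 2 : ℝ) * (N : ℝ) ^ (1 / 2 : ℝ) ≤ (N : ℝ) ^ (1 / 2 : ℝ) * Mb := by
        rw [e3]
        calc (N : ℝ) ≤ 64 * Mb * L ^ (2 * C) := hNb
          _ = (64 * L ^ (2 * C)) * Mb := by ring
          _ ≤ (N : ℝ) ^ (1 / 2 : ℝ) * Mb := by gcongr
      exact le_of_mul_le_mul_left e6 e4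
    have hcs := hCS N B₁ (DPb Ma α) (DPb Mc γ) (DPb Mb β) (384 * C₁ * (Ma : ℝ) ^ 2 * L ^ (3 * C + 2 * c + 1))
      (384 * C₁ * (Mc : ℝ) ^ 2 * L ^ (3 * C + 2 * c + 1)) (Mb / L ^ (A + (3 * C + 2 * c + 1) + 5)) (by omega)
      (E3_cont _ _) (E3_cont _ _) (E3_cont _ _) (by positivity) (by positivity) (by positivity)
      (fun T hT => E3_mv C₁ hC₁ N C c Ma α L hL hL1 (by omega) hα ha h1 (h1.trans hN2) hNa T hT
        (hMV T Ma α (by linarith) ha))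
      (fun T hT => E3_mv C₁ hC₁ N C c Mc γ L hL hL1 (by omega) hγ hc h3 (h3.trans hN2) hNc T hT
        (hMV T Mc γ (by linarith) hc))
      (fun t ht => hsup Mb hhalf hMb2 t ht)
    have hsq : √(384 * C₁ * (Ma : ℝ) ^ 2 * L ^ (3 * C + 2 * c + 1) * (384 * C₁ * (Mc : ℝ) ^ 2 * L ^ (3 * C + 2 * c + 1))) =
        384 * C₁ * Ma * Mc * L ^ (3 * C + 2 * c + 1) := by
      rw [show 384 * C₁ * (Ma : ℝ) ^ 2 * L ^ (3 * C + 2 * c + 1) * (384 * C₁ * (Mc : ℝ) ^ 2 * L ^ (3 * C + 2 * c + 1)) =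
        (384 * C₁ * Ma * Mc * L ^ (3 * C + 2 * c + 1)) ^ 2 by ring, Real.sqrt_sq (by positivity)]
    rw [hsq] at hcs
    calc 1 / (N : ℝ) * ∫ t in Tset (1 / 200) B₁ N, ‖DPb Ma α t‖ * ‖DPb Mc γ t‖ * ‖DPb Mb β t‖ *
          min 1 (8 * (N : ℝ) ^ 2 / t ^ 2)
        ≤ 1 / (N : ℝ) * (40 * (Mb / L ^ (A + (3 * C + 2 * c + 1) + 5) * (384 * C₁ * Ma * Mc * L ^ (3 * C + 2 * c + 1)))) := by
          gcongr
      _ = 15360 * C₁ * (Ma * Mb * Mc) / N / L ^ (A + 5) := by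
          have hLp : L ^ (A + (3 * C + 2 * c + 1) + 5) = L ^ (A + 5) * L ^ (3 * C + 2 * c + 1) := by ring
          rw [hLp]
          field_simp
          ring
      _ ≤ 15360 * C₁ * (8 * (N : ℝ) ^ 3) / N / L ^ (A + 5) := by gcongr
      _ = 122880 * C₁ * (N : ℝ) ^ 2 / L ^ (A + 5) := by
          field_simp
          ring
  calc _ ≤ 8 * (N : ℝ) ^ 2 / L ^ (A + 5) + (N : ℝ) ^ 2 / L ^ (A + 5) + 122880 * C₁ * (N : ℝ) ^ 2 / L ^ (A + 5) :=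
        add_le_add (add_le_add ht1 ht2) ht3
    _ = _ := by ring

/-- large `N` -/
private theorem E3_large (k : ℕ) (D : ℝ) : ∃ N₀ : ℕ, ∀ N : ℕ, N₀ ≤ N →
    4 ≤ N ∧ 1 ≤ Real.log N ∧ D ≤ Real.log N ∧ 129 * Real.log N ^ k ≤ (N : ℝ) ^ (1 / 200 : ℝ) := by
  have h1 : ∀ᶠ x : ℝ in Filter.atTop, ‖Real.log x ^ (k : ℝ)‖ ≤ (1 / 129) * ‖x ^ (1 / 200 : ℝ)‖ :=
    (isLittleO_log_rpow_rpow_atTop (k : ℝ) (by norm_num : (0 : ℝ) < 1 / 200)).bound (by norm_num)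
  have h2 : ∀ᶠ x : ℝ in Filter.atTop, 1 ≤ Real.log x := Real.tendsto_log_atTop.eventually_ge_atTop 1
  have h3 : ∀ᶠ x : ℝ in Filter.atTop, D ≤ Real.log x := Real.tendsto_log_atTop.eventually_ge_atTop D
  have h4 : ∀ᶠ x : ℝ in Filter.atTop, 4 ≤ x := Filter.eventually_ge_atTop 4
  have h5 := tendsto_natCast_atTop_atTop (R := ℝ) |>.eventually (h1.and (h2.and (h3.and h4)))
  obtain ⟨N₀, hN₀⟩ := Filter.eventually_atTop.1 h5
  refine ⟨N₀, fun N hN => ?_⟩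
  obtain ⟨a, b, c, d⟩ := hN₀ N hN
  refine ⟨by exact_mod_cast d, b, c, ?_⟩
  rw [Real.rpow_natCast, Real.norm_eq_abs, Real.norm_eq_abs,
    abs_of_nonneg (a := (N : ℝ) ^ (1 / 200 : ℝ)) (by positivity)] at a
  have := (le_abs_self _).trans a
  linarith

theorem E3 (h1 : FGB_stmt) (h2 : CS3_stmt) (h3 : G0B_stmt) (_ : TAM_stmt) (h5 : Pool.Agent.CH.MVT_stmt) : E3_stmt := by
  intro A C c
  obtain ⟨C₁, hC₁, hMV⟩ := h5
  refine ⟨A + (3 * C + 2 * c + 1) + 5, fun B₁ => ?_⟩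
  obtain ⟨B₀, hB₀⟩ := h1 (A + 3 * c + 5) B₁
  refine ⟨B₀, fun B hB => ?_⟩
  obtain ⟨N₁, hN₁⟩ := hB₀ B hB
  obtain ⟨N₂, hN₂⟩ := h3 B
  obtain ⟨N₃, hN₃⟩ := E3_large (2 * C + 3 * c + A + 5) (27 * (9 + 122880 * C₁))
  refine ⟨max N₁ (max N₂ N₃), ?_⟩
  intro N hN v hv α β γ hbd hz hsup
  have i1 : N₁ ≤ N := (le_max_left _ _).trans hN
  have i2 : N₂ ≤ N := (le_max_left _ _).trans ((le_max_right _ _).trans hN)
  have i3 : N₃ ≤ N := (le_max_right _ _).trans ((le_max_right _ _).trans hN)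
  obtain ⟨hN4, hL1, hLD, hbig⟩ := hN₃ N i3
  obtain ⟨L, hL⟩ : ∃ L, L = Real.log N := ⟨_, rfl⟩
  rw [← hL] at hL1 hLD hbig hv
  have hN0 : (0 : ℝ) < N := by exact_mod_cast (by omega : 0 < N)
  have hN1 : (1 : ℝ) ≤ N := by exact_mod_cast (by omega : 1 ≤ N)
  have hL0 : 0 < L := by linarith
  have hFG := hN₁ N i1 v
  have hG0 := (hN₂ N i2 v).2.1
  rw [← hL] at hG0
  simp_rw [← hL] at hFG hbd hz hsup ⊢
  have hblk := fun i j k : ℕ => E3_blk A C c B B₁ N v L C₁ hL hL1 hN4 hC₁ hMV hbig hv hFG hG0 h2 α β γ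
    (fun n => (hbd n).1) (fun n => (hbd n).2.1) (fun n => (hbd n).2.2) (fun n hn => (hz n hn).1)
    (fun n hn => (hz n hn).2.1) (fun n hn => (hz n hn).2.2) hsup (2 ^ i) (2 ^ j) (2 ^ k)
    Nat.one_le_two_pow Nat.one_le_two_pow Nat.one_le_two_pow
  -- number of dyadic blocks
  set Y : ℕ := ⌊(N : ℝ) * L ^ C⌋₊ with hY
  have hYlt : ∀ x : ℕ, Y < x → (N : ℝ) * L ^ C < x := fun x hx => (Nat.floor_lt (by positivity)).1 hx
  set I : ℕ := Nat.log 2 Y + 1 with hI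
  have hYI : Y < 2 ^ I := Nat.lt_pow_succ_log_self (by norm_num) Y
  have hLN : 2 * L ^ C ≤ N := by
    have e0 : L ^ C ≤ L ^ (2 * C + 3 * c + A + 5) := pow_le_pow_right₀ hL1 (by omega)
    have e2 : (N : ℝ) ^ (1 / 200 : ℝ) ≤ N := by
      calc (N : ℝ) ^ (1 / 200 : ℝ) ≤ (N : ℝ) ^ (1 : ℝ) := Real.rpow_le_rpow_of_exponent_le hN1 (by norm_num)
        _ = N := Real.rpow_one _
    have : 0 ≤ L ^ C := by positivity
    linarith
  have hLC : 1 ≤ L ^ C := one_le_pow₀ hL1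
  have hY1 : 1 ≤ Y := by
    rw [hY, Nat.one_le_floor_iff]
    nlinarith
  have hIL : (I : ℝ) ≤ 3 * L := by
    have e1 : (2 : ℝ) ^ I ≤ (N : ℝ) ^ 2 := by
      have e2 : 2 ^ Nat.log 2 Y ≤ Y := Nat.pow_log_le_self 2 (by omega)
      have e3 : ((2 : ℝ)) ^ Nat.log 2 Y ≤ Y := by exact_mod_cast e2
      have e4 : (Y : ℝ) ≤ N * L ^ C := Nat.floor_le (by positivity)
      rw [hI, pow_succ]
      nlinarith
    have e5 := Real.log_le_log (by positivity) e1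
    rw [Real.log_pow, Real.log_pow, ← hL] at e5
    push_cast at e5
    have e6 := Real.log_two_gt_d9
    have e7 : (0 : ℝ) ≤ I := Nat.cast_nonneg I
    nlinarith
  have hdec : ∑ x ∈ Ioc 0 Y, ∑ y ∈ Ioc 0 Y, ∑ z ∈ Ioc 0 Y, α x * β y * γ z * gj B N v (x * y * z) =
      ∑ i ∈ range I, ∑ j ∈ range I, ∑ k ∈ range I, ∑ x ∈ Ico (2 ^ i) (2 * 2 ^ i), ∑ y ∈ Ico (2 ^ j) (2 * 2 ^ j),
        ∑ z ∈ Ico (2 ^ k) (2 * 2 ^ k), α x * β y * γ z * gj B N v (x * y * z) := by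
    rw [E3_dy2 (fun x => ∑ y ∈ Ioc 0 Y, ∑ z ∈ Ioc 0 Y, α x * β y * γ z * gj B N v (x * y * z)) Y I hYI (by
      intro x hx
      refine sum_eq_zero fun y _ => sum_eq_zero fun z _ => ?_
      rw [(hz x (hYlt x hx)).1]
      ring)]
    refine sum_congr rfl fun i _ => ?_
    have e1 : ∀ x ∈ Ico (2 ^ i) (2 * 2 ^ i), ∑ y ∈ Ioc 0 Y, ∑ z ∈ Ioc 0 Y, α x * β y * γ z * gj B N v (x * y * z) =
        ∑ j ∈ range I, ∑ y ∈ Ico (2 ^ j) (2 * 2 ^ j), ∑ z ∈ Ioc 0 Y, α x * β y * γ z * gj B N v (x * y * z) := by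
      intro x _
      exact E3_dy2 (fun y => ∑ z ∈ Ioc 0 Y, α x * β y * γ z * gj B N v (x * y * z)) Y I hYI (by
        intro y hy
        refine sum_eq_zero fun z _ => ?_
        rw [(hz y (hYlt y hy)).2.1]
        ring)
    rw [sum_congr rfl e1, sum_comm]
    refine sum_congr rfl fun j _ => ?_
    have e2 : ∀ x ∈ Ico (2 ^ i) (2 * 2 ^ i), ∑ y ∈ Ico (2 ^ j) (2 * 2 ^ j), ∑ z ∈ Ioc 0 Y,
        α x * β y * γ z * gj B N v (x * y * z) =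
        ∑ k ∈ range I, ∑ y ∈ Ico (2 ^ j) (2 * 2 ^ j), ∑ z ∈ Ico (2 ^ k) (2 * 2 ^ k),
          α x * β y * γ z * gj B N v (x * y * z) := by
      intro x _
      refine Eq.trans (sum_congr rfl fun y _ => ?_) sum_comm
      exact E3_dy2 (fun z => α x * β y * γ z * gj B N v (x * y * z)) Y I hYI (by
        intro z hz'
        rw [(hz z (hYlt z hz')).2.2]
        ring)
    rw [sum_congr rfl e2, sum_comm]
  rw [hdec]
  calc ‖∑ i ∈ range I, ∑ j ∈ range I, ∑ k ∈ range I, ∑ x ∈ Ico (2 ^ i) (2 * 2 ^ i), ∑ y ∈ Ico (2 ^ j) (2 * 2 ^ j),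
        ∑ z ∈ Ico (2 ^ k) (2 * 2 ^ k), α x * β y * γ z * gj B N v (x * y * z)‖
      ≤ ∑ _i ∈ range I, ∑ _j ∈ range I, ∑ _k ∈ range I, (9 + 122880 * C₁) * (N : ℝ) ^ 2 / L ^ (A + 5) := by
        refine (norm_sum_le _ _).trans (sum_le_sum fun i _ => ?_)
        refine (norm_sum_le _ _).trans (sum_le_sum fun j _ => ?_)
        refine (norm_sum_le _ _).trans (sum_le_sum fun k _ => ?_)
        exact hblk i j k
    _ = (I : ℝ) ^ 3 * ((9 + 122880 * C₁) * (N : ℝ) ^ 2 / L ^ (A + 5)) := by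
        simp only [sum_const, card_range, nsmul_eq_mul]
        ring
    _ ≤ (3 * L) ^ 3 * ((9 + 122880 * C₁) * (N : ℝ) ^ 2 / L ^ (A + 5)) := by gcongr
    _ = (27 * (9 + 122880 * C₁)) * L ^ 3 * (N : ℝ) ^ 2 / L ^ (A + 5) := by ring
    _ ≤ L * L ^ 3 * (N : ℝ) ^ 2 / L ^ (A + 5) := by gcongr
    _ ≤ (N : ℝ) ^ 2 / L ^ A := by
        rw [div_le_div_iff₀ (by positivity) (by positivity)]
        calc L * L ^ 3 * (N : ℝ) ^ 2 * L ^ A = (N : ℝ) ^ 2 * L ^ (A + 4) := by ring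
          _ ≤ (N : ℝ) ^ 2 * L ^ (A + 5) :=
              mul_le_mul_of_nonneg_left (pow_le_pow_right₀ hL1 (by omega)) (by positivity)

end Pool.Agent.SK
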